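import Pool.Agent.Run7.h350.FK.Iface

/-!
# Piece STEP of project FK (helper350): the recursion on the shells
-/

set_option autoImplicit false

namespace Pool.Agent.Run7.h662.FK

open MeasureTheory Set Topology Filter
open scoped ENNReal NNReal
open Pool.Agent.Run7.h350.FK

lemma ent_cont {n : ℕ} {f : CE n → ℂ} (hf : Ent f) : Continuous f :=
  continuousOn_univ.1 hf.continuousOn

/-- `(x + y)^q ≤ (1 + ε) x^q + C y^q` -/
lemma add_rpow_le' (q : ℝ) (hq : 0 < q) (ε : ℝ) (hε : 0 < ε) : ∃ C : ℝ≥0, ∀ x y : ℝ≥0∞,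
    (x + y) ^ q ≤ ENNReal.ofReal (1 + ε) * x ^ q + C * y ^ q := by
  have h1 : Tendsto (fun t : ℝ => (1 + t) ^ q) (𝓝[>] 0) (𝓝 ((1 + 0) ^ q)) := by
    have : ContinuousAt (fun t : ℝ => (1 + t) ^ q) 0 :=
      ContinuousAt.rpow_const (by fun_prop) (Or.inl (by norm_num))
    exact this.tendsto.mono_left nhdsWithin_le_nhds
  have h2 : (1 + 0 : ℝ) ^ q < 1 + ε := by simp [hε]
  obtain ⟨t, ht1, ht2⟩ := ((h1.eventually_lt_const h2).and self_mem_nhdsWithin).exists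
  have ht0 : 0 < t := ht2
  set T : ℝ≥0 := ⟨t, ht0.le⟩ with hT
  have hT0 : T ≠ 0 := fun h => ht0.ne' (congrArg NNReal.toReal h)
  have hT0' : (T : ℝ≥0∞) ≠ 0 := by simpa using hT0
  refine ⟨(T⁻¹ + 1) ^ q, fun x y => ?_⟩
  rcases le_total y (T * x) with h | h
  · have e1 : x + y ≤ (1 + T : ℝ≥0∞) * x := by
      rw [add_mul, one_mul]; gcongr
    calc (x + y) ^ q ≤ ((1 + T : ℝ≥0∞) * x) ^ q := ENNReal.rpow_le_rpow e1 hq.le
      _ = (1 + T : ℝ≥0∞) ^ q * x ^ q := ENNReal.mul_rpow_of_nonneg _ _ hq.le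
      _ ≤ ENNReal.ofReal (1 + ε) * x ^ q := by
          gcongr
          have e2 : (1 + T : ℝ≥0∞) = ENNReal.ofReal (1 + t) := by
            rw [ENNReal.ofReal_add zero_le_one ht0.le, ENNReal.ofReal_one]
            congr 1
            rw [ENNReal.ofReal_eq_coe_nnreal ht0.le]
            rfl
          rw [e2, ENNReal.ofReal_rpow_of_pos (by linarith)]
          exact ENNReal.ofReal_le_ofReal ht1.le
      _ ≤ _ := le_self_add
  · have e1 : x ≤ (T : ℝ≥0∞)⁻¹ * y := by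
      calc x = (T : ℝ≥0∞)⁻¹ * (T * x) := by
            rw [← mul_assoc, ENNReal.inv_mul_cancel hT0' (by simp), one_mul]
        _ ≤ _ := by gcongr
    have e2 : x + y ≤ ((T : ℝ≥0∞)⁻¹ + 1) * y := by
      rw [add_mul, one_mul]; gcongr
    calc (x + y) ^ q ≤ (((T : ℝ≥0∞)⁻¹ + 1) * y) ^ q := ENNReal.rpow_le_rpow e2 hq.le
      _ = ((T : ℝ≥0∞)⁻¹ + 1) ^ q * y ^ q := ENNReal.mul_rpow_of_nonneg _ _ hq.le
      _ = (((T⁻¹ + 1) ^ q : ℝ≥0) : ℝ≥0∞) * y ^ q := by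
          congr 1
          rw [ENNReal.coe_rpow_of_nonneg _ hq.le]
          congr 1
          rw [ENNReal.coe_add, ENNReal.coe_inv hT0, ENNReal.coe_one]
      _ ≤ _ := le_add_self

/-- the numbers of the shell `K` -/
structure Nums (K : ℕ) (ρ s x : ℝ) : Prop where
  s0 : 0 < s
  s2 : s ^ 2 = K
  r0 : 0 < ρ
  r1 : ρ ≤ 1
  r2 : (1 - ρ) / ρ ≤ 1 / K
  r3 : 1 - ρ ≤ 1 / K
  x1 : x / s ≤ 5 / 4

lemma nums (K : ℕ) (hK : 2 ≤ K) (x : ℝ) (hx0 : 0 ≤ x) (hx : x ^ 2 < K + 1) :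
    Nums K (Real.sqrt (((K : ℝ) - 1) / K)) (Real.sqrt K) x := by
  have hK' : (2 : ℝ) ≤ K := by exact_mod_cast hK
  have hK0 : (0 : ℝ) < K := by linarith
  have hs0 : 0 < Real.sqrt K := Real.sqrt_pos.2 hK0
  have hs2 : Real.sqrt K ^ 2 = K := Real.sq_sqrt hK0.le
  set ρ := Real.sqrt (((K : ℝ) - 1) / K) with hρ
  have hq : (0 : ℝ) ≤ ((K : ℝ) - 1) / K := by
    apply div_nonneg <;> linarith
  have hρ2 : ρ ^ 2 = ((K : ℝ) - 1) / K := Real.sq_sqrt hq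
  have hρ2' : ρ ^ 2 = 1 - 1 / K := by
    rw [hρ2]; field_simp
  have hinv : (1 : ℝ) / K ≤ 1 / 2 := by
    apply one_div_le_one_div_of_le <;> linarith
  have hinv0 : (0 : ℝ) < 1 / K := by positivity
  have hρ0 : 0 < ρ := by
    apply Real.sqrt_pos.2
    apply div_pos <;> linarith
  have hρ1 : ρ ≤ 1 := by nlinarith
  have hρh : 1 / 2 ≤ ρ := by nlinarith
  have h3 : (1 - ρ) ≤ 1 / K * ρ := by nlinarith
  refine ⟨hs0, hs2, hρ0, hρ1, ?_, ?_, ?_⟩
  · rw [div_le_iff₀ hρ0]; exact h3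
  · nlinarith
  · rw [div_le_iff₀ hs0]
    nlinarith

lemma thick_sub {n K : ℕ} (hK : 2 ≤ K) (z : CE n) (hz : z ∈ shell n K) :
    Metric.ball z (3 / Real.sqrt K) ⊆ thick n K := by
  intro y hy
  rw [mem_ball_iff_norm] at hy
  obtain ⟨hs0, hs2, -, -, -, -, hx1⟩ := nums K hK ‖z‖ (norm_nonneg z) hz.2
  set s := Real.sqrt K with hs
  have hK' : (2 : ℝ) ≤ K := by exact_mod_cast hK
  have h1 : ‖y‖ ≤ ‖z‖ + 3 / s := by
    calc ‖y‖ = ‖z + (y - z)‖ := by rw [add_sub_cancel]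
      _ ≤ ‖z‖ + ‖y - z‖ := norm_add_le _ _
      _ ≤ _ := by linarith
  have h2 : ‖z‖ - 3 / s ≤ ‖y‖ := by
    have : ‖z‖ ≤ ‖y‖ + ‖y - z‖ := by
      calc ‖z‖ = ‖y - (y - z)‖ := by rw [sub_sub_cancel]
        _ ≤ _ := norm_sub_le _ _
    linarith
  have h9 : (3 / s) ^ 2 = 9 / K := by rw [div_pow, hs2]; norm_num
  have h9' : (9 : ℝ) / K ≤ 9 / 2 := by apply div_le_div_of_nonneg_left <;> linarith
  have hprod : ‖z‖ * (3 / s) = 3 * (‖z‖ / s) := by ring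
  constructor
  · rcases Nat.lt_or_ge K 3 with h | h
    · have : (K : ℝ) ≤ 2 := by exact_mod_cast (by omega : K ≤ 2)
      nlinarith [sq_nonneg ‖y‖]
    · have h3 : (3 : ℝ) ≤ K := by exact_mod_cast h
      have hsz : s ≤ ‖z‖ := Real.sqrt_le_iff.2 ⟨norm_nonneg _, hz.1⟩
      have h4 : 3 / s ≤ s := by rw [div_le_iff₀ hs0]; nlinarith
      have h5 : 0 ≤ s - 3 / s := by linarith
      have h6 : s - 3 / s ≤ ‖y‖ := by linarith
      have h7 : (s - 3 / s) ^ 2 ≤ ‖y‖ ^ 2 := pow_le_pow_left₀ h5 h6 2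
      have h8 : (s - 3 / s) ^ 2 = K - 6 + 9 / K := by
        have : s * (3 / s) = 3 := by field_simp
        nlinarith
      have : 0 ≤ (9 : ℝ) / K := by positivity
      linarith
  · have h7 : ‖y‖ ^ 2 ≤ (‖z‖ + 3 / s) ^ 2 := pow_le_pow_left₀ (norm_nonneg _) h1 2
    have h8 : (‖z‖ + 3 / s) ^ 2 = ‖z‖ ^ 2 + 2 * (‖z‖ * (3 / s)) + (3 / s) ^ 2 := by ring
    rw [hprod, h9] at h8
    have := hz.2
    linarith

lemma ball_sub {n K : ℕ} (hK : 2 ≤ K) (z : CE n) (hz : z ∈ shell n K) (τ : ℝ)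
    (hτ : τ ∈ Icc (Real.sqrt (((K : ℝ) - 1) / K)) 1) :
    Metric.ball (τ • z) (1 / Real.sqrt K) ⊆ Metric.ball z (3 / Real.sqrt K) := by
  obtain ⟨hs0, hs2, -, -, -, h3, hx1⟩ := nums K hK ‖z‖ (norm_nonneg z) hz.2
  set s := Real.sqrt K with hs
  apply Metric.ball_subset_ball'
  have h1 : dist (τ • z) z = (1 - τ) * ‖z‖ := by
    rw [dist_eq_norm]
    have : τ • z - z = (-(1 - τ)) • z := by
      rw [neg_sub, sub_smul, one_smul]
    rw [this, norm_smul, Real.norm_eq_abs, abs_neg, abs_of_nonneg (by linarith [hτ.2])]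
  rw [h1]
  have hK' : (2 : ℝ) ≤ K := by exact_mod_cast hK
  have h2 : (1 - τ) * ‖z‖ ≤ 1 / K * ‖z‖ := by
    apply mul_le_mul_of_nonneg_right _ (norm_nonneg _)
    linarith [hτ.1]
  have h4 : 1 / (K : ℝ) * ‖z‖ = (‖z‖ / s) / s := by
    rw [← hs2]; field_simp
  have h5 : (‖z‖ / s) / s ≤ (5 / 4) / s := by gcongr
  have h6 : 1 / s + 5 / 4 / s ≤ 3 / s := by
    rw [← add_div]; gcongr; norm_num
  linarith

lemma meas_shell (n K : ℕ) : MeasurableSet (shell n K) :=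
  (measurableSet_le measurable_const (measurable_norm.pow_const 2)).inter
    (measurableSet_lt (measurable_norm.pow_const 2) measurable_const)

lemma meas_thick (n K : ℕ) : MeasurableSet (thick n K) :=
  (measurableSet_le measurable_const (measurable_norm.pow_const 2)).inter
    (measurableSet_le (measurable_norm.pow_const 2) measurable_const)

/-- **STEP** with the right parentheses (in `S_STEP` of the interface the body of the first integral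
on the right contains the second summand) -/
def S_STEP' : Prop :=
  ∀ (n : ℕ), 1 ≤ n → ∀ q : ℝ, 0 < q → ∀ ε : ℝ, 0 < ε → ∃ C : ℝ≥0, ∀ h : CE n → ℂ, Ent h →
    ∀ K : ℕ, 2 ≤ K →
      ∫⁻ z in shell n K, ‖h z‖ₑ ^ q ≤
        ENNReal.ofReal ((1 + ε) * ((K : ℝ) / (K - 1)) ^ n) *
            (∫⁻ z in shell n (K - 1), ‖h z‖ₑ ^ q) +
          C * ENNReal.ofReal ((K : ℝ) ^ (-q)) * (∫⁻ z in thick n K, ‖rad h z‖ₑ ^ q)

theorem t_STEP' : S_ANA → S_MVQ → S_FUB → S_DIL → S_STEP' := by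
  intro hANA hMVQ hFUB hDIL n hn q hq ε hε
  obtain ⟨C1, hC1⟩ := hMVQ n hn q hq
  obtain ⟨C2, hC2⟩ := add_rpow_le' q hq ε hε
  set D := Module.finrank ℝ (CE n) with hD
  refine ⟨C2 * (C1 * 3 ^ D), fun h hh K hK => ?_⟩
  obtain ⟨hrad, hradeq, hmean⟩ := hANA n h hh
  have hK' : (2 : ℝ) ≤ K := by exact_mod_cast hK
  have hs0 : 0 < Real.sqrt K := Real.sqrt_pos.2 (by linarith)
  set V := volume (Metric.ball (0 : CE n) (1 / Real.sqrt K)) with hV
  have hV0 : V ≠ 0 :=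
    (Metric.measure_ball_pos volume _ (show (0 : ℝ) < 1 / Real.sqrt K by positivity)).ne'
  have hVt : V ≠ ⊤ := measure_ball_lt_top.ne
  have hV3 : volume (Metric.ball (0 : CE n) (3 / Real.sqrt K)) = ENNReal.ofReal (3 ^ D) * V := by
    have := Measure.addHaar_ball_mul_of_pos (volume : Measure (CE n)) (0 : CE n) (r := 3) (by norm_num)
      (1 / Real.sqrt K)
    rw [mul_one_div] at this
    exact this
  set I : CE n → ℝ≥0∞ := fun z => ∫⁻ y in Metric.ball z (3 / Real.sqrt K), ‖rad h y‖ₑ ^ q with hI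
  have hpt : ∀ z ∈ shell n K, ‖h z‖ₑ ^ q ≤
      ENNReal.ofReal (1 + ε) * ‖h (Real.sqrt (((K : ℝ) - 1) / K) • z)‖ₑ ^ q +
        C2 * (ENNReal.ofReal (1 / K) ^ q * (V⁻¹ * (C1 * I z))) := by
    intro z hz
    obtain ⟨-, hs2, hr0, hr1, hr2, hr3, hx1⟩ := nums K hK ‖z‖ (norm_nonneg z) hz.2
    set ρ := Real.sqrt (((K : ℝ) - 1) / K) with hρ
    obtain ⟨τ, hτ, hmax⟩ := (isCompact_Icc (a := ρ) (b := 1)).exists_isMaxOn
      (f := fun τ : ℝ => ‖rad h (τ • z)‖) ⟨1, ⟨hr1, le_rfl⟩⟩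
      (by have := ent_cont hrad; fun_prop)
    have hm := hmean z ρ ‖rad h (τ • z)‖ hr0 hr1 (fun τ' hτ' => hmax hτ')
    have e1 : ‖h z‖ₑ ≤ ‖h (ρ • z)‖ₑ + ENNReal.ofReal (1 / K) * ‖rad h (τ • z)‖ₑ := by
      have r1 : ‖h z‖ ≤ ‖h (ρ • z)‖ + 1 / K * ‖rad h (τ • z)‖ := by
        have a1 : ‖h z‖ ≤ ‖h (ρ • z)‖ + ‖h z - h (ρ • z)‖ := by
          have := norm_add_le (h (ρ • z)) (h z - h (ρ • z))
          rwa [add_sub_cancel] at this
        have a2 : (1 - ρ) / ρ * ‖rad h (τ • z)‖ ≤ 1 / K * ‖rad h (τ • z)‖ :=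
          mul_le_mul_of_nonneg_right hr2 (norm_nonneg _)
        linarith
      rw [← ofReal_norm, ← ofReal_norm, ← ofReal_norm, ← ENNReal.ofReal_mul (by positivity),
        ← ENNReal.ofReal_add (norm_nonneg _) (by positivity)]
      exact ENNReal.ofReal_le_ofReal r1
    have e2 : ‖rad h (τ • z)‖ₑ ^ q ≤ V⁻¹ * (C1 * I z) := by
      have b1 := hC1 (rad h) hrad (τ • z) (1 / Real.sqrt K) (by positivity)
      have b2 : volume (Metric.ball (τ • z) (1 / Real.sqrt K)) = V :=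
        Measure.addHaar_ball_center _ _ _
      rw [b2] at b1
      have b3 : ∫⁻ y in Metric.ball (τ • z) (1 / Real.sqrt K), ‖rad h y‖ₑ ^ q ≤ I z :=
        lintegral_mono_set (ball_sub hK z hz τ hτ)
      calc _ = V⁻¹ * (‖rad h (τ • z)‖ₑ ^ q * V) := by
            rw [mul_comm (_ ^ q), ← mul_assoc, ENNReal.inv_mul_cancel hV0 hVt, one_mul]
        _ ≤ V⁻¹ * (C1 * I z) :=
            mul_le_mul_right (b1.trans (mul_le_mul_right b3 _)) _
    calc ‖h z‖ₑ ^ q ≤ (‖h (ρ • z)‖ₑ + ENNReal.ofReal (1 / K) * ‖rad h (τ • z)‖ₑ) ^ q :=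
          ENNReal.rpow_le_rpow e1 hq.le
      _ ≤ ENNReal.ofReal (1 + ε) * ‖h (ρ • z)‖ₑ ^ q +
          C2 * (ENNReal.ofReal (1 / K) * ‖rad h (τ • z)‖ₑ) ^ q := hC2 _ _
      _ ≤ _ := by
        rw [ENNReal.mul_rpow_of_nonneg _ _ hq.le]
        gcongr
  have mh : Measurable fun z : CE n => ‖h z‖ₑ ^ q :=
    ((ent_cont hh).measurable.enorm).pow_const q
  have mr : Measurable fun z : CE n => ‖rad h z‖ₑ ^ q :=
    ((ent_cont hrad).measurable.enorm).pow_const q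
  have mA : Measurable fun z : CE n =>
      ENNReal.ofReal (1 + ε) * ‖h (Real.sqrt (((K : ℝ) - 1) / K) • z)‖ₑ ^ q :=
    (mh.comp (measurable_const_smul _)).const_mul _
  set c : ℝ≥0∞ := C2 * (ENNReal.ofReal (1 / K) ^ q * (V⁻¹ * C1)) with hc
  have hct : c ≠ ⊤ := by
    refine ENNReal.mul_ne_top (by simp) (ENNReal.mul_ne_top ?_ (ENNReal.mul_ne_top ?_ (by simp)))
    · exact ENNReal.rpow_ne_top_of_nonneg hq.le ENNReal.ofReal_ne_top
    · exact ENNReal.inv_ne_top.2 hV0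
  have hT := hFUB n (fun y => ‖rad h y‖ₑ ^ q) mr (shell n K) (thick n K) (3 / Real.sqrt K)
    (meas_shell n K) (meas_thick n K) (fun z hz => thick_sub hK z hz)
  calc ∫⁻ z in shell n K, ‖h z‖ₑ ^ q ≤
      ∫⁻ z in shell n K, (ENNReal.ofReal (1 + ε) * ‖h (Real.sqrt (((K : ℝ) - 1) / K) • z)‖ₑ ^ q +
        c * I z) := by
        refine setLIntegral_mono' (meas_shell n K) fun z hz => (hpt z hz).trans (le_of_eq ?_)
        rw [hc]; ring
    _ = ENNReal.ofReal (1 + ε) *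
          (∫⁻ z in shell n K, ‖h (Real.sqrt (((K : ℝ) - 1) / K) • z)‖ₑ ^ q) +
        c * ∫⁻ z in shell n K, I z := by
        rw [lintegral_add_left mA, lintegral_const_mul' _ _ ENNReal.ofReal_ne_top,
          lintegral_const_mul' _ _ hct]
    _ ≤ ENNReal.ofReal (1 + ε) * (ENNReal.ofReal (((K : ℝ) / (K - 1)) ^ n) *
          (∫⁻ z in shell n (K - 1), ‖h z‖ₑ ^ q)) +
        c * (ENNReal.ofReal (3 ^ D) * V * (∫⁻ y in thick n K, ‖rad h y‖ₑ ^ q)) := by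
        gcongr
        · exact hDIL n (fun z => ‖h z‖ₑ ^ q) mh K hK
        · rw [← hV3]; exact hT
    _ = _ := by
        have a1 : ENNReal.ofReal (1 / (K : ℝ)) ^ q = ENNReal.ofReal ((K : ℝ) ^ (-q)) := by
          rw [ENNReal.ofReal_rpow_of_pos (by positivity)]
          congr 1
          rw [one_div, Real.inv_rpow (by positivity), Real.rpow_neg (by positivity)]
        have a2 : ENNReal.ofReal (3 ^ D) = 3 ^ D := by
          rw [ENNReal.ofReal_pow (by norm_num)]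
          norm_num
        rw [ENNReal.ofReal_mul (by linarith : (0 : ℝ) ≤ 1 + ε), hc, a1, a2]
        push_cast
        have a3 : V⁻¹ * V = 1 := ENNReal.inv_mul_cancel hV0 hVt
        calc _ = ENNReal.ofReal (1 + ε) * ENNReal.ofReal (((K : ℝ) / (K - 1)) ^ n) *
              (∫⁻ z in shell n (K - 1), ‖h z‖ₑ ^ q) +
              C2 * (C1 * 3 ^ D) * ENNReal.ofReal ((K : ℝ) ^ (-q)) * (V⁻¹ * V) *
                (∫⁻ y in thick n K, ‖rad h y‖ₑ ^ q) := by ring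
          _ = _ := by rw [a3, mul_one]

end Pool.Agent.Run7.h662.FK
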